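import Mathlib

/-!
# A metacompact Hausdorff space which is not a pseudo-open compact image of a paracompact space

Let `I` be a set with more than continuum many elements. The space `Pt` consists of the nodes
(finite sequences over `I`) and of the branches (infinite sequences over `I`). A set `U` is open
if for every node `s` in `U` there is a set `F` of at most continuum many elements of `I` such that
for every branch `b` through `s` with `b (|s|)` not in `F` the set `U` contains `b` and all but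
finitely many of the nodes `b | n`. The branches are isolated.

* `Pt` is Hausdorff.
* `Pt` is metacompact: choose `U s` in the cover and `F s` for every node `s`, put
  `V s = U s ∩ (s and everything above s in directions outside of F s)` and take the `V s` for
  those `s` which are not in `V r` for an `r` below `s` chosen before, and the single branches. If
  a branch `b` were in infinitely many of these sets, then the first of them, `V s`, would contain
  almost all nodes `b | n`, so that they would not be chosen.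
* Let `f : X → Pt` be continuous, `X` paracompact Hausdorff, with compact fibres and pseudo-open.
  The nodes of length between `|s| + 1` and `|s| + j` are a closed set, so there are open
  `G s j ⊇ f⁻¹ s` such that `G s j` and `G t j` are disjoint if `t` is above `s` and
  `|t| ≤ |s| + j`. For every `J : ℕ → ℕ` and every node `u` take a locally finite closed cover
  which refines the open cover of `f⁻¹ (everything above u)` by the sets `G s (J |s|)` and the
  set of the points over branches. These are `2 ^ ℵ₀` covers for every node, so there is a branch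
  `b` which avoids all the exceptional sets `F` belonging to the finite intersections of the stars
  of the fibres `f⁻¹ (b | n)`. By compactness the fibre over `b` contains a point `x n` in all the
  stars of `f⁻¹ (b | n)`. Let `y` be a limit of the `x n` along an ultrafilter. Then for every `J`
  there are infinitely many `m` with `y ∈ G (b | m) (J m)`. Hence there are infinitely many `m`
  with `y ∈ G (b | m) j` for all `j`, and two of them give a contradiction.
-/

set_option autoImplicit false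

namespace Pool.Agent.Results.MP_a57f84_gt.NotPseudoOpenCompactImage

open Set Topology Filter

universe u v

/-- A space is metacompact if every open cover has a point-finite open refinement. -/
def Metacompact (Y : Type u) [TopologicalSpace Y] : Prop :=
  ∀ U : Set (Set Y), (∀ u ∈ U, IsOpen u) → ⋃₀ U = Set.univ →
    ∃ V : Set (Set Y), (∀ v ∈ V, IsOpen v ∧ ∃ u ∈ U, v ⊆ u) ∧ ⋃₀ V = Set.univ ∧
      ∀ y : Y, {v | v ∈ V ∧ y ∈ v}.Finite

/-- A map is pseudo-open if `y` is in the interior of `f(U)` whenever `U` is open and contains the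
fibre of `y`. -/
def PseudoOpen {X : Type u} {Y : Type v} [TopologicalSpace X] [TopologicalSpace Y]
    (f : X → Y) : Prop :=
  ∀ (y : Y) (U : Set X), IsOpen U → f ⁻¹' {y} ⊆ U → y ∈ interior (f '' U)

/-- The index set of the branching: it has more than continuum many elements. -/
abbrev I : Type := Set (ℕ → ℕ)

/-- Sets with at most continuum many elements. -/
def Small (F : Set I) : Prop := Cardinal.mk F ≤ Cardinal.mk (ℕ → ℕ)

lemma Small.empty : Small ∅ := by
  unfold Small
  simp

lemma Small.singleton (x : I) : Small {x} := by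
  unfold Small
  simp only [Cardinal.mk_fintype, Fintype.card_unique, Nat.cast_one]
  exact Cardinal.one_le_aleph0.trans (Cardinal.aleph0_le_mk _)

lemma Small.mono {F G : Set I} (h : F ⊆ G) (hG : Small G) : Small F :=
  (Cardinal.mk_le_mk_of_subset h).trans hG

lemma Small.union {F G : Set I} (hF : Small F) (hG : Small G) : Small (F ∪ G) := by
  unfold Small at *
  refine (Cardinal.mk_union_le F G).trans ?_
  exact (add_le_add hF hG).trans
    (Cardinal.add_eq_self (Cardinal.aleph0_le_mk _)).le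

lemma mk_fin : Cardinal.mk (Finset ((ℕ → ℕ) × ℕ)) = Cardinal.mk (ℕ → ℕ) := by
  rw [Cardinal.mk_finset_of_infinite, Cardinal.mk_prod]
  simp only [Cardinal.lift_id]
  rw [Cardinal.mul_eq_left (Cardinal.aleph0_le_mk _)
    ((Cardinal.mk_nat).le.trans (Cardinal.aleph0_le_mk _)) (Cardinal.mk_ne_zero _)]

lemma Small.iUnion {F : Finset ((ℕ → ℕ) × ℕ) → Set I} (h : ∀ E, Small (F E)) :
    Small (⋃ E, F E) := by
  unfold Small at *
  refine (Cardinal.mk_iUnion_le_sum_mk).trans ?_
  refine (Cardinal.sum_le_sum _ (fun _ => Cardinal.mk (ℕ → ℕ)) h).trans ?_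
  rw [Cardinal.sum_const']
  rw [mk_fin]
  exact (Cardinal.mul_eq_self (Cardinal.aleph0_le_mk _)).le

lemma Small.exists_notMem {F : Set I} (h : Small F) : ∃ x, x ∉ F := by
  by_contra hc
  push Not at hc
  have h1 : F = Set.univ := Set.eq_univ_of_forall hc
  unfold Small at h
  rw [h1, Cardinal.mk_univ, Cardinal.mk_set] at h
  exact absurd h (not_le.2 (Cardinal.cantor _))

/-- Finite sequences over `I`: the length and the entries (entries beyond the length are `∅`). -/
@[ext] structure Nd : Type where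
  /-- the length -/
  n : ℕ
  /-- the entries -/
  a : ℕ → I
  /-- entries beyond the length are empty -/
  h : ∀ k, n ≤ k → a k = ∅

open Classical in
/-- The finite sequence consisting of the first `n` entries of `b`. -/
noncomputable def res (b : ℕ → I) (n : ℕ) : Nd where
  n := n
  a := fun k => if k < n then b k else ∅
  h := fun k hk => by simp [not_lt.2 hk]

@[simp] lemma res_n (b : ℕ → I) (n : ℕ) : (res b n).n = n := rfl

lemma res_a {b : ℕ → I} {n k : ℕ} (h : k < n) : (res b n).a k = b k := by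
  simp [res, h]

lemma res_congr {b c : ℕ → I} {n : ℕ} (h : ∀ k < n, b k = c k) : res b n = res c n := by
  ext1
  · rfl
  · funext k
    by_cases hk : k < n
    · rw [res_a hk, res_a hk, h k hk]
    · rw [(res b n).h k (not_lt.1 hk), (res c n).h k (not_lt.1 hk)]

/-- The finite sequence consisting of the first `i` entries of `s`. -/
noncomputable def tr (s : Nd) (i : ℕ) : Nd := res s.a i

@[simp] lemma tr_n (s : Nd) (i : ℕ) : (tr s i).n = i := rfl

lemma tr_a {s : Nd} {i k : ℕ} (h : k < i) : (tr s i).a k = s.a k := res_a h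

lemma res_self (s : Nd) {b : ℕ → I} (h : ∀ k < s.n, s.a k = b k) : s = res b s.n := by
  ext1
  · rfl
  · funext k
    by_cases hk : k < s.n
    · rw [res_a hk, h k hk]
    · rw [s.h k (not_lt.1 hk), (res b s.n).h k (not_lt.1 hk)]

lemma tr_res {b : ℕ → I} {i n : ℕ} (h : i ≤ n) : tr (res b n) i = res b i :=
  res_congr (fun _ hk => res_a (lt_of_lt_of_le hk h))

/-- The points of the space. -/
inductive Pt : Type
  | nd (s : Nd)
  | br (b : ℕ → I)

open Pt

/-- `b` passes through the node `s`. -/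
def Thr (s : Nd) (b : ℕ → I) : Prop := ∀ k < s.n, s.a k = b k

lemma thr_res (b : ℕ → I) (n : ℕ) : Thr (res b n) b := fun _ hk => res_a hk

/-- The topology. -/
instance : TopologicalSpace Pt where
  IsOpen U := ∀ s : Nd, nd s ∈ U → ∃ F : Set I, Small F ∧ ∀ b : ℕ → I, Thr s b → b s.n ∉ F →
    br b ∈ U ∧ {n | nd (res b n) ∉ U}.Finite
  isOpen_univ := fun s _ => ⟨∅, Small.empty, fun b _ _ => ⟨trivial, by simp⟩⟩
  isOpen_inter := by
    rintro U V hU hV s ⟨h1, h2⟩
    obtain ⟨F, hF, hF'⟩ := hU s h1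
    obtain ⟨G, hG, hG'⟩ := hV s h2
    refine ⟨F ∪ G, hF.union hG, fun b hb hbs => ?_⟩
    obtain ⟨a1, a2⟩ := hF' b hb (fun h => hbs (Or.inl h))
    obtain ⟨b1, b2⟩ := hG' b hb (fun h => hbs (Or.inr h))
    refine ⟨⟨a1, b1⟩, (a2.union b2).subset ?_⟩
    intro n hn
    by_contra hc
    simp only [mem_union, Set.mem_ofPred_eq, not_or, not_not] at hc
    exact hn ⟨hc.1, hc.2⟩
  isOpen_sUnion := by
    rintro S hS s ⟨U, hU, hs⟩
    obtain ⟨F, hF, hF'⟩ := hS U hU s hs
    refine ⟨F, hF, fun b hb hbs => ?_⟩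
    obtain ⟨a1, a2⟩ := hF' b hb hbs
    exact ⟨⟨U, hU, a1⟩, a2.subset (fun n hn hc => hn ⟨U, hU, hc⟩)⟩

lemma isOpen_iff {U : Set Pt} : IsOpen U ↔ ∀ s : Nd, nd s ∈ U → ∃ F : Set I, Small F ∧
    ∀ b : ℕ → I, Thr s b → b s.n ∉ F → br b ∈ U ∧ {n | nd (res b n) ∉ U}.Finite := Iff.rfl

/-- The point `s` and everything above `s` in directions outside of `F`. -/
def Nb (s : Nd) (F : Set I) : Set Pt := fun z => match z with
  | nd t => t = s ∨ (s.n < t.n ∧ (∀ k < s.n, s.a k = t.a k) ∧ t.a s.n ∉ F)
  | br b => Thr s b ∧ b s.n ∉ F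

lemma nd_mem_Nb {s t : Nd} {F : Set I} : nd t ∈ Nb s F ↔
    (t = s ∨ (s.n < t.n ∧ (∀ k < s.n, s.a k = t.a k) ∧ t.a s.n ∉ F)) := Iff.rfl

lemma br_mem_Nb {s : Nd} {b : ℕ → I} {F : Set I} : br b ∈ Nb s F ↔ (Thr s b ∧ b s.n ∉ F) :=
  Iff.rfl

lemma isOpen_Nb (s : Nd) {F : Set I} (hF : Small F) : IsOpen (Nb s F) := by
  rw [isOpen_iff]
  intro t ht
  have key : ∀ b : ℕ → I, br b ∈ Nb s F → {n | nd (res b n) ∉ Nb s F}.Finite := by
    rintro b ⟨h1, h2⟩
    apply (Set.finite_Iic s.n).subset
    intro n hn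
    by_contra hc
    have hc' : s.n < n := not_le.1 hc
    apply hn
    right
    refine ⟨hc', fun k hk => ?_, ?_⟩
    · rw [res_a (hk.trans hc')]
      exact h1 k hk
    · rw [res_a hc']
      exact h2
  rcases ht with rfl | ⟨h1, h2, h3⟩
  · refine ⟨F, hF, fun b hb hbs => ?_⟩
    have : br b ∈ Nb t F := ⟨hb, hbs⟩
    exact ⟨this, key b this⟩
  · refine ⟨∅, Small.empty, fun b hb _ => ?_⟩
    have : br b ∈ Nb s F := by
      refine ⟨fun k hk => ?_, ?_⟩
      · rw [h2 k hk]
        exact hb k (hk.trans h1)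
      · rw [← hb s.n h1]
        exact h3
    exact ⟨this, key b this⟩

/-- Sets of nodes of bounded length are closed. -/
lemma isClosed_of_bdd (C : Set Pt) (N : ℕ) (hC : ∀ z ∈ C, ∃ s : Nd, z = nd s ∧ s.n ≤ N) :
    IsClosed C := by
  rw [← isOpen_compl_iff, isOpen_iff]
  intro s _
  refine ⟨∅, Small.empty, fun b _ _ => ⟨?_, ?_⟩⟩
  · intro h
    obtain ⟨t, ht, _⟩ := hC _ h
    cases ht
  · apply (Set.finite_Iic N).subset
    intro n hn
    simp only [Set.mem_ofPred_eq, mem_compl_iff, not_not] at hn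
    obtain ⟨t, ht, ht'⟩ := hC _ hn
    cases ht
    exact ht'

lemma isOpen_br (S : Set (ℕ → I)) : IsOpen (br '' S) := by
  rw [isOpen_iff]
  rintro s ⟨b, _, hb⟩
  cases hb

lemma isOpen_brs : IsOpen {z : Pt | ∃ b, z = br b} := by
  rw [isOpen_iff]
  rintro s ⟨b, hb⟩
  cases hb

lemma isOpen_single (b : ℕ → I) : IsOpen ({br b} : Set Pt) := by
  have := isOpen_br {b}
  rwa [Set.image_singleton] at this

/-- Everything above `s` is a clopen set. -/
lemma isClosed_Nb (s : Nd) : IsClosed (Nb s ∅) := by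
  rw [← isOpen_compl_iff, isOpen_iff]
  intro t ht
  -- a branch through `t` outside of `Nb s ∅`
  refine ⟨{s.a t.n}, Small.singleton _, fun b hb hbs => ?_⟩
  have h1 : ¬ Thr s b := by
    intro h
    apply ht
    rcases lt_trichotomy t.n s.n with h2 | h2 | h2
    · exact absurd (h t.n h2).symm hbs
    · left
      rw [res_self t hb, res_self s h, h2]
    · right
      exact ⟨h2, fun k hk => by rw [h k hk, hb k (hk.trans h2)], by simp⟩
  refine ⟨fun h => h1 h.1, ?_⟩
  apply (Set.finite_Iic s.n).subset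
  intro n hn
  simp only [Set.mem_ofPred_eq, mem_compl_iff, not_not] at hn
  by_contra hc
  have hc' : s.n < n := not_le.1 hc
  apply h1
  rcases hn with h | ⟨_, h, _⟩
  · have : n = s.n := by rw [← h]; rfl
    omega
  · intro k hk
    rw [h k hk, res_a (hk.trans hc')]

instance : T2Space Pt := by
  have key : ∀ (s : Nd) (z : Pt), z ≠ nd s → z ∉ Nb s ∅ →
      ∃ u v : Set Pt, IsOpen u ∧ IsOpen v ∧ nd s ∈ u ∧ z ∈ v ∧ Disjoint u v := by
    intro s z _ hz
    exact ⟨Nb s ∅, (Nb s ∅)ᶜ, isOpen_Nb s Small.empty, (isClosed_Nb s).isOpen_compl,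
      Or.inl rfl, hz, disjoint_compl_right⟩
  have key2 : ∀ (s t : Nd), s.n ≤ t.n → s ≠ t →
      ∃ u v : Set Pt, IsOpen u ∧ IsOpen v ∧ nd s ∈ u ∧ nd t ∈ v ∧ Disjoint u v := by
    intro s t hst hne
    by_cases ht : nd t ∈ Nb s ∅
    · rcases ht with h | ⟨h1, h2, _⟩
      · exact absurd h.symm hne
      · refine ⟨Nb s {t.a s.n}, Nb t ∅, isOpen_Nb s (Small.singleton _),
          isOpen_Nb t Small.empty, Or.inl rfl, Or.inl rfl, ?_⟩
        rw [Set.disjoint_left]
        intro z hz1 hz2
        cases z with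
        | nd r =>
          have h3 : t.n ≤ r.n ∧ ∀ k < t.n, t.a k = r.a k := by
            rcases hz2 with rfl | ⟨h3, h4, _⟩
            · exact ⟨le_rfl, fun _ _ => rfl⟩
            · exact ⟨h3.le, h4⟩
          rcases hz1 with rfl | ⟨_, _, h5⟩
          · exact absurd h3.1 (not_le.2 h1)
          · exact h5 (by rw [← h3.2 s.n h1]; rfl)
        | br b =>
          exact hz1.2 (by rw [← hz2.1 s.n h1]; rfl)
    · exact key s (nd t) (fun h => hne (by cases h; rfl)) ht
  have key3 : ∀ (s : Nd) (b : ℕ → I),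
      ∃ u v : Set Pt, IsOpen u ∧ IsOpen v ∧ nd s ∈ u ∧ br b ∈ v ∧ Disjoint u v := by
    intro s b
    refine ⟨Nb s {b s.n}, {br b}, isOpen_Nb s (Small.singleton _), isOpen_single b, Or.inl rfl,
      rfl, ?_⟩
    rw [Set.disjoint_singleton_right]
    exact fun h => h.2 rfl
  refine ⟨fun x y hxy => ?_⟩
  cases x with
  | nd s =>
    cases y with
    | nd t =>
      have hne : s ≠ t := fun h => hxy (by rw [h])
      rcases le_total s.n t.n with h | h
      · exact key2 s t h hne
      · obtain ⟨u, v, h1, h2, h3, h4, h5⟩ := key2 t s h hne.symm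
        exact ⟨v, u, h2, h1, h4, h3, h5.symm⟩
    | br b => exact key3 s b
  | br b =>
    cases y with
    | nd t =>
      obtain ⟨u, v, h1, h2, h3, h4, h5⟩ := key3 t b
      exact ⟨v, u, h2, h1, h4, h3, h5.symm⟩
    | br c =>
      refine ⟨{br b}, {br c}, isOpen_single b, isOpen_single c, rfl, rfl, ?_⟩
      rw [Set.disjoint_singleton]
      exact hxy

/-- The chosen nodes. -/
def Ch (V : Nd → Set Pt) (s : Nd) : Prop :=
  ∀ i, (h : i < s.n) → Ch V (tr s i) → nd s ∉ V (tr s i)
termination_by s.n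
decreasing_by exact h

lemma Ch_iff {V : Nd → Set Pt} {s : Nd} :
    Ch V s ↔ ∀ i, i < s.n → Ch V (tr s i) → nd s ∉ V (tr s i) := by
  rw [Ch]

lemma metacompact : Metacompact Pt := by
  intro 𝒰 h𝒰 hcov
  have h1 : ∀ s : Nd, ∃ U ∈ 𝒰, nd s ∈ U := by
    intro s
    have : nd s ∈ ⋃₀ 𝒰 := by rw [hcov]; trivial
    exact this
  choose U hU hsU using h1
  have h2 : ∀ s : Nd, ∃ F : Set I, Small F ∧
    ∀ b : ℕ → I, Thr s b → b s.n ∉ F → br b ∈ U s ∧ {n | nd (res b n) ∉ U s}.Finite :=
    fun s => isOpen_iff.1 (h𝒰 _ (hU s)) s (hsU s)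
  choose F hF hFb using h2
  let V : Nd → Set Pt := fun s => U s ∩ Nb s (F s)
  have hVo : ∀ s, IsOpen (V s) := fun s => (h𝒰 _ (hU s)).inter (isOpen_Nb s (hF s))
  have hsV : ∀ s, nd s ∈ V s := fun s => ⟨hsU s, Or.inl rfl⟩
  refine ⟨{v | (∃ s, Ch V s ∧ v = V s) ∨ ∃ b, v = {br b}}, ?_, ?_, ?_⟩
  · rintro v (⟨s, _, rfl⟩ | ⟨b, rfl⟩)
    · exact ⟨hVo s, U s, hU s, inter_subset_left⟩
    · refine ⟨isOpen_single b, ?_⟩
      have : br b ∈ ⋃₀ 𝒰 := by rw [hcov]; trivial
      obtain ⟨u, hu, hbu⟩ := this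
      exact ⟨u, hu, by simpa using hbu⟩
  · rw [eq_univ_iff_forall]
    intro z
    cases z with
    | nd s =>
      by_cases hs : Ch V s
      · exact ⟨V s, Or.inl ⟨s, hs, rfl⟩, hsV s⟩
      · rw [Ch_iff] at hs
        push Not at hs
        obtain ⟨i, _, h3, h4⟩ := hs
        exact ⟨V (tr s i), Or.inl ⟨_, h3, rfl⟩, h4⟩
    | br b => exact ⟨{br b}, Or.inr ⟨b, rfl⟩, rfl⟩
  · intro z
    cases z with
    | nd t =>
      apply ((Set.finite_Iic t.n).image (fun i => V (tr t i))).subset
      rintro v ⟨(⟨s, _, rfl⟩ | ⟨b, rfl⟩), hv⟩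
      · have h3 := hv.2
        rcases h3 with h4 | ⟨h4, h5, _⟩
        · refine ⟨t.n, mem_Iic.2 le_rfl, ?_⟩
          show V (tr t t.n) = V s
          have : tr t t.n = t := (res_self t (fun _ _ => rfl)).symm
          rw [this, h4]
        · refine ⟨s.n, mem_Iic.2 h4.le, ?_⟩
          show V (tr t s.n) = V s
          have : s = tr t s.n := res_self s h5
          rw [← this]
      · cases hv
    | br b =>
      have hfin : {m | Ch V (res b m) ∧ br b ∈ V (res b m)}.Finite := by
        by_contra hinf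
        have hinf' : {m | Ch V (res b m) ∧ br b ∈ V (res b m)}.Infinite := hinf
        obtain ⟨m, hm1, hm2⟩ := hinf'.nonempty
        obtain ⟨_, h3⟩ := hFb (res b m) b (thr_res b m) hm2.2.2
        apply hinf
        apply ((Set.finite_Iic m).union h3).subset
        rintro n ⟨hn1, _⟩
        by_contra hc
        simp only [mem_union, mem_Iic, Set.mem_ofPred_eq, not_or, not_le, not_not] at hc
        obtain ⟨hc1, hc2⟩ := hc
        have h4 := (Ch_iff.1 hn1) m hc1
        rw [tr_res hc1.le] at h4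
        apply h4 hm1
        refine ⟨hc2, Or.inr ⟨hc1, fun k hk => ?_, ?_⟩⟩
        · have hk' : k < m := hk
          rw [res_a hk', res_a (hk'.trans hc1)]
        · have : (res b n).a (res b m).n = b m := res_a hc1
          rw [this]
          exact hm2.2.2
      apply ((hfin.image (fun m => V (res b m))).union (Set.finite_singleton {br b})).subset
      rintro v ⟨(⟨s, hs, rfl⟩ | ⟨c, rfl⟩), hv⟩
      · left
        have h3 : s = res b s.n := res_self s hv.2.1
        refine ⟨s.n, ⟨?_, ?_⟩, ?_⟩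
        · rwa [← h3]
        · rwa [← h3]
        · show V (res b s.n) = V s
          rw [← h3]
      · right
        have : b = c := by
          have h3 : br b = br c := hv
          cases h3
          rfl
        rw [this]
        rfl

/-- Append an entry. -/
noncomputable def app (s : Nd) (x : I) : Nd := res (Function.update s.a s.n x) (s.n + 1)

lemma app_res (b : ℕ → I) (n : ℕ) : app (res b n) (b n) = res b (n + 1) := by
  apply res_congr
  intro k hk
  have hk' : k < n + 1 := hk
  by_cases h : k = n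
  · subst h
    have : (res b k).n = k := rfl
    rw [this, Function.update_self]
  · have h1 : k < n := by omega
    rw [Function.update_of_ne (by simpa using h), res_a h1]

lemma exists_branch (c : Nd → I) : ∃ b : ℕ → I, ∀ n, b n = c (res b n) := by
  let S : ℕ → Nd := fun n => Nat.rec (res (fun _ => ∅) 0) (fun _ s => app s (c s)) n
  have hS : ∀ n, S (n + 1) = app (S n) (c (S n)) := fun _ => rfl
  refine ⟨fun n => c (S n), fun n => ?_⟩
  have key : ∀ n, S n = res (fun n => c (S n)) n := by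
    intro n
    induction n with
    | zero => exact res_congr (fun k hk => absurd hk (Nat.not_lt_zero k))
    | succ n ih =>
      rw [hS]
      have h1 := app_res (fun n => c (S n)) n
      rw [← ih] at h1
      exact h1
  show c (S n) = _
  rw [← key n]

/-- The nodes above `s` whose length is at most `|s| + j`. -/
def Cl (s : Nd) (j : ℕ) : Set Pt :=
  {z | ∃ t : Nd, z = nd t ∧ s.n < t.n ∧ t.n ≤ s.n + j ∧ tr t s.n = s}

lemma isClosed_Cl (s : Nd) (j : ℕ) : IsClosed (Cl s j) :=
  isClosed_of_bdd _ (s.n + j) (fun _ ⟨t, h, _, h', _⟩ => ⟨t, h, h'⟩)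

lemma locFin_closed {X : Type u} [TopologicalSpace X] {ι : Type v} {P : ι → Set X}
    (hl : LocallyFinite P) (hc : ∀ i, IsClosed (P i)) (q : ι → Prop) :
    IsClosed (⋃ i : {i // q i}, P i) :=
  (hl.comp_injective Subtype.val_injective).isClosed_iUnion (fun i => hc i)

/-- The main point. -/
theorem no_map {X : Type u} [TopologicalSpace X] [T2Space X] [ParacompactSpace X]
    (f : X → Pt) (hf : Continuous f) (hcomp : ∀ b, IsCompact (f ⁻¹' {br b}))
    (hpo : ∀ (s : Nd) (U : Set X), IsOpen U → f ⁻¹' {nd s} ⊆ U → nd s ∈ interior (f '' U)) :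
    False := by
  classical
  -- neighbourhoods of the fibres over the nodes
  have hH : ∀ (s : Nd) (j : ℕ), ∃ H : Set X, IsOpen H ∧ f ⁻¹' {nd s} ⊆ H ∧
      closure H ⊆ (f ⁻¹' (Cl s j))ᶜ := by
    intro s j
    apply normal_exists_closure_subset (isClosed_singleton.preimage hf)
      ((isClosed_Cl s j).preimage hf).isOpen_compl
    intro x hx hx'
    have h1 : f x = nd s := hx
    obtain ⟨t, h2, h3, _⟩ := hx'
    rw [h1] at h2
    cases h2
    exact lt_irrefl _ h3
  choose H hHo hH1 hH2 using hH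
  let G : Nd → ℕ → Set X := fun s j => H s j ∩ f ⁻¹' (Nb s ∅) ∩
    (⋃ i ∈ {i | i < s.n ∧ s.n ≤ i + j}, closure (H (tr s i) j))ᶜ
  have hGo : ∀ s j, IsOpen (G s j) := by
    intro s j
    refine ((hHo s j).inter ((isOpen_Nb s Small.empty).preimage hf)).inter ?_
    rw [isOpen_compl_iff]
    apply Set.Finite.isClosed_biUnion
    · exact (Set.finite_Iio s.n).subset (fun i hi => hi.1)
    · intro i _
      exact isClosed_closure
  have hG1 : ∀ s j, f ⁻¹' {nd s} ⊆ G s j := by
    intro s j x hx
    have h1 : f x = nd s := hx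
    refine ⟨⟨hH1 s j hx, ?_⟩, ?_⟩
    · show f x ∈ Nb s ∅
      rw [h1]
      exact Or.inl rfl
    · intro h
      simp only [mem_iUnion] at h
      obtain ⟨i, ⟨hi1, hi2⟩, hi3⟩ := h
      apply hH2 (tr s i) j hi3
      show f x ∈ Cl (tr s i) j
      rw [h1]
      exact ⟨s, rfl, hi1, hi2, rfl⟩
  have hG2 : ∀ (b : ℕ → I) (m m' j : ℕ), m < m' → m' ≤ m + j →
      ∀ y, y ∈ G (res b m) j → y ∈ G (res b m') j → False := by
    intro b m m' j h1 h2 y hy hy'
    apply hy'.2
    simp only [mem_iUnion]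
    refine ⟨m, ⟨h1, h2⟩, ?_⟩
    rw [tr_res h1.le]
    exact subset_closure hy.1.1
  -- the covers
  let Cov : (ℕ → ℕ) → Nd → Option Nd → Set X := fun J u o => match o with
    | none => f ⁻¹' ({z | ∃ b, z = br b} ∪ (Nb u ∅)ᶜ)
    | some s => {x | x ∈ G s (J s.n) ∧ tr s u.n = u ∧ u.n ≤ s.n}
  have hCo : ∀ J u i, IsOpen (Cov J u i) := by
    intro J u i
    cases i with
    | none => exact (isOpen_brs.union (isClosed_Nb u).isOpen_compl).preimage hf
    | some s =>
      show IsOpen {x | x ∈ G s (J s.n) ∧ tr s u.n = u ∧ u.n ≤ s.n}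
      by_cases h : tr s u.n = u ∧ u.n ≤ s.n
      · simp only [h, and_self, and_true]
        exact hGo s _
      · simp only [h, and_false]
        exact isOpen_empty
  have hCu : ∀ J u, ⋃ i, Cov J u i = univ := by
    intro J u
    rw [eq_univ_iff_forall]
    intro x
    rw [mem_iUnion]
    by_cases h : f x ∈ ({z | ∃ b, z = br b} ∪ (Nb u ∅)ᶜ : Set Pt)
    · exact ⟨none, h⟩
    · rw [mem_union, not_or] at h
      obtain ⟨h1, h2⟩ := h
      rw [mem_compl_iff, not_not] at h2
      generalize hz : f x = z at h1 h2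
      cases z with
      | br b => exact absurd ⟨b, rfl⟩ h1
      | nd s =>
        refine ⟨some s, hG1 s _ hz, ?_⟩
        rcases h2 with rfl | ⟨h3, h4, _⟩
        · exact ⟨(res_self s (fun _ _ => rfl)).symm, le_rfl⟩
        · exact ⟨(res_self u h4).symm, h3.le⟩
  have hP : ∀ J u, ∃ P : Option Nd → Set X, (∀ i, IsClosed (P i)) ∧ ⋃ i, P i = univ ∧
      LocallyFinite P ∧ ∀ i, P i ⊆ Cov J u i := by
    intro J u
    obtain ⟨v, hv1, hv2, hv3, hv4⟩ := precise_refinement (Cov J u) (hCo J u) (hCu J u)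
    obtain ⟨P, hP1, hP2, hP3⟩ := exists_iUnion_eq_closed_subset hv1
      (fun x => hv3.point_finite x) hv2
    exact ⟨P, hP2, hP1, hv3.subset hP3, fun i => (hP3 i).trans (hv4 i)⟩
  choose P hPc hPu hPl hPC using hP
  let St : (ℕ → ℕ) → Nd → Nd → Set X := fun J u s =>
    ⋃ i : {i // (P J u i ∩ f ⁻¹' {nd s}).Nonempty}, P J u i
  let W : (ℕ → ℕ) → Nd → Nd → Set X := fun J u s =>
    (⋃ i : {i // ¬ (P J u i ∩ f ⁻¹' {nd s}).Nonempty}, P J u i)ᶜ
  have hStc : ∀ J u s, IsClosed (St J u s) := fun J u s => locFin_closed (hPl J u) (hPc J u) _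
  have hWo : ∀ J u s, IsOpen (W J u s) :=
    fun J u s => (locFin_closed (hPl J u) (hPc J u) _).isOpen_compl
  have hW1 : ∀ J u s, f ⁻¹' {nd s} ⊆ W J u s := by
    intro J u s x hx h
    rw [mem_iUnion] at h
    obtain ⟨⟨i, hi⟩, hi'⟩ := h
    exact hi ⟨x, hi', hx⟩
  have hWSt : ∀ J u s, W J u s ⊆ St J u s := by
    intro J u s x hx
    have h1 : x ∈ ⋃ i, P J u i := by rw [hPu]; trivial
    rw [mem_iUnion] at h1
    obtain ⟨i, hi⟩ := h1
    by_cases h2 : (P J u i ∩ f ⁻¹' {nd s}).Nonempty
    · exact mem_iUnion.2 ⟨⟨i, h2⟩, hi⟩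
    · exact absurd (mem_iUnion.2 ⟨⟨i, h2⟩, hi⟩) hx
  have hF : ∀ (s : Nd) (E : Finset ((ℕ → ℕ) × ℕ)), ∃ F : Set I, Small F ∧
      ∀ b : ℕ → I, Thr s b → b s.n ∉ F →
        ∃ x, f x = br b ∧ ∀ q ∈ E, x ∈ St q.1 (tr s q.2) s := by
    intro s E
    have h1 : IsOpen (⋂ q ∈ E, W q.1 (tr s q.2) s) :=
      isOpen_biInter_finset (fun q _ => hWo _ _ _)
    have h2 := hpo s _ h1 (by
      intro x hx
      simp only [mem_iInter]
      exact fun q _ => hW1 _ _ _ hx)
    obtain ⟨F, hF1, hF2⟩ := isOpen_iff.1 isOpen_interior s h2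
    refine ⟨F, hF1, fun b hb hbs => ?_⟩
    obtain ⟨x, hx1, hx2⟩ := interior_subset (hF2 b hb hbs).1
    refine ⟨x, hx2, fun q hq => hWSt _ _ _ ?_⟩
    simp only [mem_iInter] at hx1
    exact hx1 q hq
  choose F hFs hFb using hF
  have hc : ∀ s, ∃ x : I, x ∉ ⋃ E, F s E := fun s => (Small.iUnion (hFs s)).exists_notMem
  choose c hc using hc
  obtain ⟨b, hb⟩ := exists_branch c
  have hbF : ∀ n E, b n ∉ F (res b n) E := by
    intro n E h
    apply hc (res b n)
    rw [← hb n]
    exact mem_iUnion.2 ⟨E, h⟩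
  -- the points `x n`
  have hx : ∀ n, ∃ x, f x = br b ∧ ∀ J k, x ∈ St J (tr (res b n) k) (res b n) := by
    intro n
    obtain ⟨x, hx1, hx2⟩ := (hcomp b).inter_iInter_nonempty
      (fun q : (ℕ → ℕ) × ℕ => St q.1 (tr (res b n) q.2) (res b n)) (fun q => hStc _ _ _) (by
        intro E
        obtain ⟨x, hx1, hx2⟩ := hFb (res b n) E b (thr_res b n) (hbF n E)
        exact ⟨x, hx1, by simpa using hx2⟩)
    refine ⟨x, hx1, fun J k => ?_⟩
    rw [mem_iInter] at hx2
    exact hx2 (J, k)
  choose x hxb hx using hx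
  -- the limit `y`
  obtain ⟨y, hy1, hy2⟩ := (hcomp b).ultrafilter_le_nhds ((hyperfilter ℕ).map x) (by
    rw [le_principal_iff]
    exact Filter.mem_map.2 (Filter.Eventually.of_forall (fun n => hxb n)))
  have hyt : Tendsto x (hyperfilter ℕ : Filter ℕ) (𝓝 y) := hy2
  have key : ∀ (J : ℕ → ℕ) (k : ℕ), ∃ m, k ≤ m ∧ y ∈ G (res b m) (J m) := by
    intro J k
    have h1 : ∀ᶠ n in (hyperfilter ℕ : Filter ℕ), k ≤ n := by
      apply (hyperfilter_le_cofinite (α := ℕ))
      rw [Filter.mem_cofinite]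
      apply (Set.finite_Iio k).subset
      intro n hn
      simpa using hn
    have hfin : {i | (P J (res b k) i ∩ f ⁻¹' {br b}).Nonempty}.Finite :=
      (hPl J (res b k)).finite_nonempty_inter_compact (hcomp b)
    have h2 : ∀ᶠ n in (hyperfilter ℕ : Filter ℕ),
        ∃ i ∈ {i | (P J (res b k) i ∩ f ⁻¹' {br b}).Nonempty},
          (k ≤ n ∧ x n ∈ P J (res b k) i ∧
            (P J (res b k) i ∩ f ⁻¹' {nd (res b n)}).Nonempty) := by
      filter_upwards [h1] with n hn
      have h3 := hx n J k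
      rw [tr_res hn, mem_iUnion] at h3
      obtain ⟨⟨i, hi⟩, hi'⟩ := h3
      exact ⟨i, ⟨x n, hi', hxb n⟩, hn, hi', hi⟩
    rw [Ultrafilter.eventually_exists_mem_iff hfin] at h2
    obtain ⟨i, _, hi⟩ := h2
    have hyi : y ∈ P J (res b k) i :=
      (hPc J (res b k) i).mem_of_tendsto hyt (hi.mono (fun n h => h.2.1))
    obtain ⟨n, hkn, _, z, hz1, hz2⟩ := hi.exists
    have hyC := hPC J (res b k) i hyi
    have hzC := hPC J (res b k) i hz1
    have hz3 : f z = nd (res b n) := hz2
    have hy3 : f y = br b := hy1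
    cases i with
    | none =>
      exfalso
      have h4 : f z ∈ ({z | ∃ b, z = br b} ∪ (Nb (res b k) ∅)ᶜ : Set Pt) := hzC
      rw [hz3] at h4
      rcases h4 with ⟨c, hc⟩ | h4
      · cases hc
      · apply h4
        rcases hkn.lt_or_eq with h5 | h5
        · right
          exact ⟨h5, fun l hl => by
            have hl' : l < k := hl
            rw [res_a hl', res_a (hl'.trans h5)], by simp⟩
        · left
          rw [h5]
    | some s =>
      have h4 : y ∈ G s (J s.n) ∧ tr s (res b k).n = res b k ∧ (res b k).n ≤ s.n := hyC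
      obtain ⟨h5, _, h6⟩ := h4
      have h7 : f y ∈ Nb s ∅ := h5.1.2
      rw [hy3] at h7
      have h8 : s = res b s.n := res_self s h7.1
      refine ⟨s.n, h6, ?_⟩
      rw [← h8]
      exact h5
  -- the contradiction
  have hJ : ∀ m, ∃ j, (∃ j, y ∉ G (res b m) j) → y ∉ G (res b m) j := by
    intro m
    by_cases h : ∃ j, y ∉ G (res b m) j
    · obtain ⟨j, hj⟩ := h
      exact ⟨j, fun _ => hj⟩
    · exact ⟨0, fun h' => absurd h' h⟩
  choose J hJ using hJ
  have hall : ∀ k, ∃ m, k ≤ m ∧ ∀ j, y ∈ G (res b m) j := by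
    intro k
    obtain ⟨m, hm, hy⟩ := key J k
    refine ⟨m, hm, ?_⟩
    by_contra hc
    push Not at hc
    exact hJ m hc hy
  obtain ⟨m, _, hm⟩ := hall 0
  obtain ⟨m', hm', hm''⟩ := hall (m + 1)
  exact hG2 b m m' m' (by omega) (by omega) y (hm m') (hm'' m')

theorem result : ∃ (Y : Type) (_ : TopologicalSpace Y), T2Space Y ∧ Metacompact Y ∧
    ∀ (X : Type u) [TopologicalSpace X] [T2Space X] [ParacompactSpace X] (f : X → Y),
      Continuous f → Function.Surjective f → (∀ y, IsCompact (f ⁻¹' {y})) → ¬ PseudoOpen f :=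
  ⟨Pt, inferInstance, inferInstance, metacompact, fun _ _ _ _ f hf _ hc hp =>
    no_map f hf (fun b => hc (br b)) (fun s U hU h => hp (nd s) U hU h)⟩

end Pool.Agent.Results.MP_a57f84_gt.NotPseudoOpenCompactImage
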